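import Pool.Agent.V8H69.RF.Main
import Pool.Agent.V8H69.RF.Exist2
import Pool.Agent.V8H69.RF.Uniq

/-!
# MP_67ef3c_al, Q1: residual finiteness growth and complex Mal'cev completions

Positive answer to Q1: if `G₁`, `G₂` are finitely generated torsion-free nilpotent groups whose
complexified rational Mal'cev Lie algebras are isomorphic, then `RF_{G₁} ≈ RF_{G₂}`.
The growth is determined: `RF_G(n) ≈ (log n)^d`, where `d` is the least integer such that the
ideals of codimension at most `d` of the complex Mal'cev Lie algebra of `G` intersect in zero.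

The definitions of `wordLen`, `depth`, `rfGrowth`, `Dominated`, `GrowthEquiv`, and of Mal'cev
completions in exponential form (`MalcevCompletion`, with rational Lie algebra `QLie` and
complexified Lie algebra `CLie`), are in `Pool.Agent.TH91.RF.Defs`.
-/

set_option autoImplicit false

namespace Pool.Agent.Results.MP_67ef3c_al.ComplexCompletion

open Pool.Agent.TH91.RF

/-- `G` is a finitely generated torsion-free nilpotent group. -/
def IsTau (G : Type) [Group G] : Prop :=
  Group.FG G ∧ Group.IsNilpotent G ∧ ∀ g : G, ∀ m : ℕ, 0 < m → g ^ m = 1 → g = 1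

/-- The least `e` such that the Lie ideals of codimension at most `e` of the complex Lie algebra
of the Mal'cev completion `c` have trivial intersection. -/
noncomputable def sepDim {G : Type} [Group G] (c : MalcevCompletion G) : ℕ :=
  sInf {e : ℕ | ∀ x : c.CLie, x ≠ 0 → ∃ I : LieIdeal ℂ c.CLie,
    x ∉ I ∧ Module.finrank ℂ (c.CLie ⧸ I.toSubmodule) ≤ e}

/-- (1) Every finitely generated torsion-free nilpotent group has a Mal'cev completion;
(2) its rational Lie algebra is unique up to isomorphism;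
(3) **Q1**: an isomorphism of the complexified Lie algebras implies `RF_{G₁} ≈ RF_{G₂}`;
(4) `RF_G(n) ≈ (log n) ^ d` where `d = sepDim c`, for `G` nontrivial. -/
theorem result :
    (∀ (G : Type) [Group G], IsTau G → Nonempty (MalcevCompletion G)) ∧
    (∀ (G : Type) [Group G] (c c' : MalcevCompletion G), Nonempty (c.QLie ≃ₗ⁅ℚ⁆ c'.QLie)) ∧
    (∀ (G₁ G₂ : Type) [Group G₁] [Group G₂], IsTau G₁ → IsTau G₂ →
      ∀ (c₁ : MalcevCompletion G₁) (c₂ : MalcevCompletion G₂),
        Nonempty (c₁.CLie ≃ₗ⁅ℂ⁆ c₂.CLie) →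
        ∀ (S₁ : Set G₁) (S₂ : Set G₂), S₁.Finite → Subgroup.closure S₁ = ⊤ →
          S₂.Finite → Subgroup.closure S₂ = ⊤ → GrowthEquiv (rfGrowth S₁) (rfGrowth S₂)) ∧
    (∀ (G : Type) [Group G] [Nontrivial G], IsTau G → ∀ (c : MalcevCompletion G) (S : Set G),
      S.Finite → Subgroup.closure S = ⊤ →
        GrowthEquiv (rfGrowth S) (fun n => Nat.log 2 n ^ sepDim c)) := by
  refine ⟨?_, ?_, ?_, ?_⟩
  · intro G _ ⟨h1, h2, h3⟩
    exact Pool.Agent.V8H69.RF.exists_completion G h3
  · intro G _ c c'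
    exact Pool.Agent.V8H69.RF.lie_unique c c'
  · intro G₁ G₂ _ _ ⟨_, h2, h3⟩ ⟨_, h2', h3'⟩ c₁ c₂ ⟨φ⟩ S₁ S₂ hS₁ hg₁ hS₂ hg₂
    exact Pool.Agent.V8H69.RF.main h3 h3' hS₁ hg₁ hS₂ hg₂ c₁ c₂ φ
  · intro G _ _ ⟨_, h2, h3⟩ c S hS hg
    exact Pool.Agent.V8H69.RF.growth h3 hS hg c

end Pool.Agent.Results.MP_67ef3c_al.ComplexCompletion
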